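import Mathlib
import Pool.Agent.Y4.P.Jobs

/-!
# The projector on an irreducible submodule which is stable under all endomorphisms
-/

set_option linter.unusedSectionVars false

namespace Pool.Agent.Y293.P

open Matrix Module Pool.Agent.Y90 Pool.Agent.W437.HC Pool.Agent.W437.HD
open Pool.Agent.W548.Odd
open scoped ComplexOrder

noncomputable section

variable {g : ℕ} {Z : Matrix (Fin g) (Fin g) ℂ}

/-- Equivariant matrices. -/
def Cm (Z : Matrix (Fin g) (Fin g) ℂ) (A : Matrix (Fin g ⊕ Fin g) (Fin g ⊕ Fin g) ℂ) : Prop :=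
  ∀ X ∈ LZ Z, X * A = A * X

/-- The adjoint. -/
def adj (A : Matrix (Fin g ⊕ Fin g) (Fin g ⊕ Fin g) ℂ) :
    Matrix (Fin g ⊕ Fin g) (Fin g ⊕ Fin g) ℂ := -(Om g ℂ * Aᴴ * Om g ℂ)

theorem Om_conjT : (Om g ℂ)ᴴ = -Om g ℂ := by
  simp [Om, fromBlocks_conjTranspose, fromBlocks_neg]

theorem adj_adj (A : Matrix (Fin g ⊕ Fin g) (Fin g ⊕ Fin g) ℂ) : adj (adj A) = A := by
  unfold adj
  rw [conjTranspose_neg, conjTranspose_mul, conjTranspose_mul, conjTranspose_conjTranspose,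
    Om_conjT]
  have h1 : -(Om g ℂ * -(-Om g ℂ * (A * -Om g ℂ)) * Om g ℂ) =
      (Om g ℂ * Om g ℂ) * A * (Om g ℂ * Om g ℂ) := by noncomm_ring
  rw [h1, Om_sq]
  noncomm_ring

theorem adj_mul (A B : Matrix (Fin g ⊕ Fin g) (Fin g ⊕ Fin g) ℂ) :
    adj (A * B) = adj B * adj A := by
  unfold adj
  rw [conjTranspose_mul]
  have h1 : -(Om g ℂ * Bᴴ * Om g ℂ) * -(Om g ℂ * Aᴴ * Om g ℂ) =
      Om g ℂ * Bᴴ * (Om g ℂ * Om g ℂ) * Aᴴ * Om g ℂ := by noncomm_ring
  rw [h1, Om_sq]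
  noncomm_ring

theorem adj_sub (A B : Matrix (Fin g ⊕ Fin g) (Fin g ⊕ Fin g) ℂ) :
    adj (A - B) = adj A - adj B := by
  unfold adj
  rw [conjTranspose_sub]
  noncomm_ring

theorem adj_one : adj (1 : Matrix (Fin g ⊕ Fin g) (Fin g ⊕ Fin g) ℂ) = 1 := by
  unfold adj
  rw [conjTranspose_one, mul_one, Om_sq, neg_neg]

theorem adj_zero : adj (0 : Matrix (Fin g ⊕ Fin g) (Fin g ⊕ Fin g) ℂ) = 0 := by
  unfold adj
  rw [conjTranspose_zero, mul_zero, zero_mul, neg_zero]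

/-- The Lie algebra is stable under the adjoint. -/
theorem adj_mem (h : PM Z) {X : Matrix (Fin g ⊕ Fin g) (Fin g ⊕ Fin g) ℂ} (hX : X ∈ LZ Z) :
    adj X ∈ LZ Z := by
  have h1 := h.sp (gal_LZ cc X hX)
  have h2 : (X.map cc)ᵀ = Xᴴ := rfl
  rw [h2] at h1
  have h3 : adj X = -(X.map cc) := by
    unfold adj
    have h4 : Xᴴ * Om g ℂ = -(Om g ℂ * X.map cc) := eq_neg_of_add_eq_zero_left h1
    rw [mul_assoc, h4, mul_neg, ← mul_assoc, Om_sq]
    noncomm_ring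
  rw [h3]
  exact Submodule.neg_mem _ (gal_LZ cc X hX)

theorem Cm.adj (h : PM Z) {A : Matrix (Fin g ⊕ Fin g) (Fin g ⊕ Fin g) ℂ} (hA : Cm Z A) :
    Cm Z (adj A) := by
  intro X hX
  have h1 := congrArg P.adj (hA _ (adj_mem h hX))
  rw [adj_mul, adj_mul, adj_adj] at h1
  exact h1.symm

/-- Positivity. -/
theorem pos (h : PM Z) {A : Matrix (Fin g ⊕ Fin g) (Fin g ⊕ Fin g) ℂ} (hA : Cm Z A)
    (h0 : adj A * A = 0) : A = 0 := by
  obtain ⟨y, hy, hyy⟩ := exists_sqrt (OmJ_posDef h.symm h.pos)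
  rw [star_eq_conjTranspose, conjTranspose_eq_transpose_of_trivial] at hyy
  obtain ⟨yi, hyyi⟩ : ∃ yi, y * yi = 1 := hy.exists_right_inv
  have hSSi : cm y * cm yi = 1 := by rw [← cm_mul, hyyi, cm_one]
  have hSiS : cm yi * cm y = 1 := mul_eq_one_comm.1 hSSi
  have hOS : Om g ℂ * cm (JR Z) = (cm y)ᵀ * cm y := by
    rw [← cm_Om, ← cm_mul, hyy, cm_mul, cm_transpose]
  have hJD : cm (JR Z) = Complex.I • DZ Z := by
    change _ = Complex.I • ((-Complex.I) • cm (JR Z))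
    rw [smul_smul, show Complex.I * -Complex.I = 1 by simp, one_smul]
  have hJA : A * cm (JR Z) = cm (JR Z) * A := by
    rw [hJD, mul_smul_comm, smul_mul_assoc, hA _ DZ_mem]
  unfold P.adj at h0
  have h1 : Aᴴ * Om g ℂ * A = 0 := by
    have h2 : Om g ℂ * (-(Om g ℂ * Aᴴ * Om g ℂ) * A) = -((Om g ℂ * Om g ℂ) * Aᴴ * Om g ℂ * A) := by
      noncomm_ring
    rw [h0, mul_zero, Om_sq] at h2
    have h3 : -(-1 * Aᴴ * Om g ℂ * A) = Aᴴ * Om g ℂ * A := by noncomm_ring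
    rw [← h3, ← h2]
  have h4 : (cm y * A)ᴴ * (cm y * A) = 0 := by
    rw [conjTranspose_mul, cm_conjT]
    have h5 : Aᴴ * (cm y)ᵀ * (cm y * A) = Aᴴ * ((cm y)ᵀ * cm y) * A := by noncomm_ring
    rw [h5, ← hOS, mul_assoc, mul_assoc, ← hJA, ← mul_assoc, ← mul_assoc, h1, zero_mul]
  have h6 := conjTranspose_mul_self_eq_zero.1 h4
  rw [← one_mul A, ← hSiS, mul_assoc, h6, mul_zero]

/-- A stable projector. -/
theorem central (h : PM Z) {E : Matrix (Fin g ⊕ Fin g) (Fin g ⊕ Fin g) ℂ} (hE : Cm Z E)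
    (hEE : E * E = E) (hst : ∀ T, Cm Z T → E * T * E = T * E)
    {T : Matrix (Fin g ⊕ Fin g) (Fin g ⊕ Fin g) ℂ} (hT : Cm Z T) : T * E = E * T := by
  have cmul : ∀ {A B : Matrix (Fin g ⊕ Fin g) (Fin g ⊕ Fin g) ℂ}, Cm Z A → Cm Z B →
      Cm Z (A * B) := by
    intro A B hA hB X hX
    rw [← mul_assoc, hA X hX, mul_assoc, hB X hX, mul_assoc]
  have csub : ∀ {A B : Matrix (Fin g ⊕ Fin g) (Fin g ⊕ Fin g) ℂ}, Cm Z A → Cm Z B →
      Cm Z (A - B) := by
    intro A B hA hB X hX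
    rw [mul_sub, sub_mul, hA X hX, hB X hX]
  set N := E * T - E * T * E with hN
  have hNc : Cm Z N := csub (cmul hE hT) (cmul (cmul hE hT) hE)
  have hNE : N * E = 0 := by
    rw [hN, sub_mul, mul_assoc (E * T), hEE, sub_self]
  have hEN : E * N = N := by
    rw [hN, mul_sub, ← mul_assoc, ← mul_assoc, hEE, ← mul_assoc, hEE]
  have hs := hNc.adj h
  have h1 : adj N * E = 0 := by
    apply pos h (cmul hs hE)
    rw [adj_mul, adj_adj]
    have h2 : P.adj E * N * (P.adj N * E) = P.adj E * N * (E * P.adj N * E) := by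
      rw [hst _ hs]
    rw [h2]
    have h3 : P.adj E * N * (E * P.adj N * E) = P.adj E * (N * E) * P.adj N * E := by noncomm_ring
    rw [h3, hNE]
    noncomm_ring
  have h4 : N = 0 := by
    apply pos h hNc
    rw [← hEN, ← mul_assoc, hEN, h1, zero_mul]
  have h5 : E * T = E * T * E := sub_eq_zero.1 h4
  rw [h5, hst T hT]

/-- Central projectors are selfadjoint. -/
theorem self_adj (h : PM Z) {E : Matrix (Fin g ⊕ Fin g) (Fin g ⊕ Fin g) ℂ} (hE : Cm Z E)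
    (hEE : E * E = E) (hc : ∀ T, Cm Z T → T * E = E * T) : adj E = E := by
  have hs := hE.adj h
  have hss : adj E * adj E = adj E := by rw [← adj_mul, hEE]
  have h1 : adj E - E * adj E = 0 := by
    have hc1 : Cm Z (adj E - E * adj E) := by
      intro X hX
      rw [mul_sub, sub_mul, hs X hX, ← mul_assoc, hE X hX, mul_assoc, hs X hX, mul_assoc]
    have hc2 : Cm Z (adj (adj E - E * adj E)) := hc1.adj h
    have h2 : adj (adj (adj E - E * adj E)) * adj (adj E - E * adj E) = 0 := by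
      rw [adj_adj, adj_sub, adj_mul, adj_adj]
      have h3 : (P.adj E - E * P.adj E) * (E - E * P.adj E) =
          P.adj E * E - P.adj E * E * P.adj E - E * P.adj E * E +
            E * P.adj E * E * P.adj E := by noncomm_ring
      rw [h3, hc _ hs]
      have h4 : E * P.adj E * P.adj E = E * P.adj E := by rw [mul_assoc, hss]
      have h5 : E * P.adj E * E = E * P.adj E := by rw [mul_assoc, hc _ hs, ← mul_assoc, hEE]
      rw [h5, h4]
      noncomm_ring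
    have h6 := pos h hc2 h2
    rw [← adj_adj (P.adj E - E * P.adj E), h6, adj_zero]
  have h7 : adj E = E * adj E := sub_eq_zero.1 h1
  have h8 := congrArg P.adj h7
  rw [adj_adj, adj_mul, adj_adj] at h8
  rw [h7, ← h8]

/-- The matrix of the projector on a stable subspace. -/
theorem exists_E (h : PM Z) {U : Submodule ℂ (Fin g ⊕ Fin g → ℂ)} (hU : Stab (LZ Z) U) :
    ∃ E : Matrix (Fin g ⊕ Fin g) (Fin g ⊕ Fin g) ℂ, Cm Z E ∧ (∀ v, E *ᵥ v ∈ U) ∧
      ∀ v ∈ U, E *ᵥ v = v := by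
  obtain ⟨π, h1, h2, h3⟩ := h.cred U hU
  refine ⟨LinearMap.toMatrix' π, fun X hX => ?_, fun v => ?_, fun v hv => ?_⟩
  · apply Matrix.toLin'.injective
    refine LinearMap.ext fun v => ?_
    rw [toLin'_apply, toLin'_apply, ← mulVec_mulVec, ← mulVec_mulVec, LinearMap.toMatrix'_mulVec,
      LinearMap.toMatrix'_mulVec, h1 X hX]
  · rw [LinearMap.toMatrix'_mulVec]
    exact h2 v
  · rw [LinearMap.toMatrix'_mulVec]
    exact h3 v hv

theorem mul_of_fix {A B : Matrix (Fin g ⊕ Fin g) (Fin g ⊕ Fin g) ℂ}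
    (h : ∀ v, A *ᵥ (B *ᵥ v) = B *ᵥ v) : A * B = B := by
  apply Matrix.toLin'.injective
  refine LinearMap.ext fun v => ?_
  rw [toLin'_apply, toLin'_apply, ← mulVec_mulVec, h]

/-- Products of central projectors on irreducible submodules. -/
theorem orth {E F : Matrix (Fin g ⊕ Fin g) (Fin g ⊕ Fin g) ℂ} (hEE : E * E = E)
    (hF : Cm Z F) (hFc : E * F = F * E)
    {U : Submodule ℂ (Fin g ⊕ Fin g → ℂ)} (hU : IrS (LZ Z) U) (hEU : ∀ v, v ∈ U ↔ E *ᵥ v = v) :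
    F * E = 0 ∨ ∃ A, F * A = E := by
  let T : (Fin g ⊕ Fin g → ℂ) →ₗ[ℂ] (Fin g ⊕ Fin g → ℂ) := mulVecLin F
  have hT : ∀ X ∈ LZ Z, ∀ u ∈ U, T (X *ᵥ u) = X *ᵥ T u := by
    intro X hX u _
    change F *ᵥ (X *ᵥ u) = X *ᵥ (F *ᵥ u)
    rw [mulVec_mulVec, mulVec_mulVec, hF X hX]
  by_cases h0 : ∃ u ∈ U, T u ≠ 0
  · right
    have hTU : ∀ u ∈ U, T u ∈ U := by
      intro u hu
      rw [hEU] at hu ⊢
      change E *ᵥ (F *ᵥ u) = F *ᵥ u
      rw [mulVec_mulVec, hFc, ← mulVec_mulVec, hu]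
    have h1 := hU.map_eq hU hT h0 hTU
    have h2 : ∀ j, ∃ u, F *ᵥ u = E *ᵥ (Pi.single j 1) := by
      intro j
      have h3 : E *ᵥ (Pi.single j 1) ∈ U := by
        rw [hEU, mulVec_mulVec, hEE]
      rw [← h1] at h3
      obtain ⟨u, -, hu⟩ := h3
      exact ⟨u, hu⟩
    choose u hu using h2
    refine ⟨Matrix.of fun i j => u j i, ?_⟩
    ext i j
    have h4 := congrFun (hu j) i
    rw [mulVec_single_one] at h4
    rw [Matrix.mul_apply]
    exact h4
  · left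
    push Not at h0
    apply Matrix.toLin'.injective
    refine LinearMap.ext fun v => ?_
    rw [toLin'_apply, toLin'_apply, ← mulVec_mulVec, zero_mulVec]
    refine h0 _ ?_
    rw [hEU, mulVec_mulVec, hEE]

section conj

variable {E : Matrix (Fin g ⊕ Fin g) (Fin g ⊕ Fin g) ℂ}

theorem map_map_symm (σ : ℂ ≃+* ℂ) (X : Matrix (Fin g ⊕ Fin g) (Fin g ⊕ Fin g) ℂ) :
    (X.map σ.symm).map σ = X := by
  ext i j
  simp

theorem conj_comm {E : Matrix (Fin g ⊕ Fin g) (Fin g ⊕ Fin g) ℂ} (hE : Cm Z E)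
    (σ : ℂ ≃+* ℂ) : Cm Z (E.map σ) := by
  intro X hX
  have h2 := hE _ (gal_LZ σ.symm X hX)
  have h3 := congrArg (fun M : Matrix (Fin g ⊕ Fin g) (Fin g ⊕ Fin g) ℂ => M.map σ) h2
  simp only [Matrix.map_mul] at h3
  rwa [map_map_symm] at h3

theorem conj_central {E : Matrix (Fin g ⊕ Fin g) (Fin g ⊕ Fin g) ℂ}
    (hc : ∀ T, Cm Z T → T * E = E * T) (σ : ℂ ≃+* ℂ)
    {T : Matrix (Fin g ⊕ Fin g) (Fin g ⊕ Fin g) ℂ} (hT : Cm Z T) :
    T * E.map σ = E.map σ * T := by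
  have h2 := hc _ (conj_comm hT σ.symm)
  have h3 := congrArg (fun M : Matrix (Fin g ⊕ Fin g) (Fin g ⊕ Fin g) ℂ => M.map σ) h2
  simp only [Matrix.map_mul] at h3
  rwa [map_map_symm] at h3

theorem conj_idem {E : Matrix (Fin g ⊕ Fin g) (Fin g ⊕ Fin g) ℂ} (hEE : E * E = E)
    (σ : ℂ ≃+* ℂ) : E.map σ * E.map σ = E.map σ := by
  rw [← Matrix.map_mul, hEE]

theorem conj_mem {E : Matrix (Fin g ⊕ Fin g) (Fin g ⊕ Fin g) ℂ}
    {U : Submodule ℂ (Fin g ⊕ Fin g → ℂ)} (hEU : ∀ v, v ∈ U ↔ E *ᵥ v = v) (σ : ℂ ≃+* ℂ)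
    (v : Fin g ⊕ Fin g → ℂ) : v ∈ cjS σ U ↔ E.map σ *ᵥ v = v := by
  have h1 := map_mulVec_aut σ E (fun i => σ.symm (v i))
  have h2 : (fun i => σ (σ.symm (v i))) = v := by
    funext i
    simp
  rw [mem_cjS, hEU, ← h2, ← h1, h2]
  constructor
  · intro h
    funext i
    rw [h]
    simp
  · intro h
    funext i
    have h3 := congrFun h i
    rw [← h3]
    simp

theorem adj_entry {E : Matrix (Fin g ⊕ Fin g) (Fin g ⊕ Fin g) ℂ} (h : adj E = E) :
    Eᴴ = -(Om g ℂ * E * Om g ℂ) := by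
  unfold P.adj at h
  have h1 : Om g ℂ * -(Om g ℂ * Eᴴ * Om g ℂ) * Om g ℂ =
      -((Om g ℂ * Om g ℂ) * Eᴴ * (Om g ℂ * Om g ℂ)) := by noncomm_ring
  rw [h, Om_sq] at h1
  rw [h1]
  noncomm_ring

end conj

/-- The projector on an irreducible submodule which is stable under endomorphisms. -/
theorem hasPr (h : PM Z) {U : Submodule ℂ (Fin g ⊕ Fin g → ℂ)} (hU : IrS (LZ Z) U)
    (hE : ∀ T : (Fin g ⊕ Fin g → ℂ) →ₗ[ℂ] (Fin g ⊕ Fin g → ℂ),
      (∀ X ∈ LZ Z, ∀ v, T (X *ᵥ v) = X *ᵥ T v) → ∀ u ∈ U, T u ∈ U) :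
    ∃ π : Matrix (Fin g ⊕ Fin g) (Fin g ⊕ Fin g) ℂ, π * π = π ∧
      (∀ X ∈ LZ Z, X * π = π * X) ∧ (∀ v, v ∈ U ↔ π *ᵥ v = v) ∧
      (Set.range fun σ : ℂ ≃+* ℂ => π.map σ).Finite ∧
      ∀ (σ : ℂ ≃+* ℂ) (i j : Fin g ⊕ Fin g), cc (σ (π i j)) = σ (cc (π i j)) := by
  obtain ⟨E, hEc, hE1, hE2⟩ := exists_E h hU.2.1
  have hEE : E * E = E := mul_of_fix fun v => hE2 _ (hE1 v)
  have hst : ∀ T, Cm Z T → E * T * E = T * E := by
    intro T hT
    rw [mul_assoc]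
    refine mul_of_fix fun v => hE2 _ ?_
    rw [← mulVec_mulVec]
    refine hE (mulVecLin T) (fun X hX w => ?_) _ (hE1 v)
    change T *ᵥ (X *ᵥ w) = X *ᵥ (T *ᵥ w)
    rw [mulVec_mulVec, mulVec_mulVec, hT X hX]
  have hcen : ∀ T, Cm Z T → T * E = E * T := fun T hT => central h hEc hEE hst hT
  have hEU : ∀ v, v ∈ U ↔ E *ᵥ v = v := fun v => ⟨hE2 v, fun hv => hv ▸ hE1 v⟩
  refine ⟨E, hEE, hEc, hEU, ?_, ?_⟩
  · -- the conjugates are orthogonal
    have hor : ∀ σ τ : ℂ ≃+* ℂ, E.map τ * E.map σ = 0 ∨ E.map τ = E.map σ := by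
      have hor1 : ∀ σ τ : ℂ ≃+* ℂ, E.map τ * E.map σ = 0 ∨ E.map τ * E.map σ = E.map σ := by
        intro σ τ
        rcases orth (conj_idem hEE σ) (conj_comm hEc τ)
          (conj_central hcen τ (conj_comm hEc σ)) (hU.cj gal_LZ σ) (conj_mem hEU σ) with h1 | h1
        · exact Or.inl h1
        · obtain ⟨A, hA⟩ := h1
          right
          rw [← hA, ← mul_assoc, conj_idem hEE τ]
      intro σ τ
      rcases hor1 σ τ with h1 | h1
      · exact Or.inl h1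
      rcases hor1 τ σ with h2 | h2
      · left
        rw [← conj_central hcen τ (conj_comm hEc σ), h2]
      · right
        rw [← h1, ← conj_central hcen τ (conj_comm hEc σ), h2]
    have hne : ∀ σ : ℂ ≃+* ℂ, E.map σ ≠ 0 := by
      intro σ h0
      apply (hU.cj gal_LZ σ).1
      rw [eq_bot_iff]
      intro v hv
      rw [conj_mem hEU σ, h0, zero_mulVec] at hv
      rw [Submodule.mem_bot, ← hv]
    have hli : LinearIndependent ℂ (fun e : (Set.range fun σ : ℂ ≃+* ℂ => E.map σ) =>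
        (e : Matrix (Fin g ⊕ Fin g) (Fin g ⊕ Fin g) ℂ)) := by
      rw [linearIndependent_iff']
      intro s c hs e0 he0
      have h1 := congrArg (fun M : Matrix (Fin g ⊕ Fin g) (Fin g ⊕ Fin g) ℂ => M * e0.1) hs
      simp only [Finset.sum_mul, zero_mul] at h1
      rw [Finset.sum_eq_single e0] at h1
      · obtain ⟨σ, hσ⟩ := e0.2
        rw [smul_mul_assoc, ← hσ] at h1
        simp only at h1
        rw [conj_idem hEE σ] at h1
        exact (smul_eq_zero.1 h1).resolve_right (hne σ)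
      · intro e _ hne'
        obtain ⟨σ, hσ⟩ := e0.2
        obtain ⟨τ, hτ⟩ := e.2
        rw [smul_mul_assoc, ← hσ, ← hτ]
        simp only
        rcases hor σ τ with h2 | h2
        · rw [h2, smul_zero]
        · exact absurd (Subtype.ext (hτ.symm.trans (h2.trans hσ))) hne'
      · intro h2
        exact absurd he0 h2
    exact hli.setFinite
  · intro σ i j
    have h1 := adj_entry (self_adj h hEc hEE hcen)
    have h2 := adj_entry (self_adj h (conj_comm hEc σ) (conj_idem hEE σ)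
      fun T hT => conj_central hcen σ hT)
    have h3 : (-(Om g ℂ * E * Om g ℂ)).map σ = -(Om g ℂ * E.map σ * Om g ℂ) := by
      have h4 : (Om g ℂ).map σ = Om g ℂ := Om_aut (σ : ℂ →+* ℂ)
      have h5 : (Om g ℂ * E * Om g ℂ).map σ = Om g ℂ * E.map σ * Om g ℂ := by
        rw [Matrix.map_mul, Matrix.map_mul, h4]
      rw [← h5]
      ext a b
      exact map_neg σ _
    rw [← h1, ← h2] at h3
    have h6 := congrFun (congrFun h3 j) i
    rw [Matrix.map_apply, conjTranspose_apply, conjTranspose_apply, Matrix.map_apply] at h6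
    exact h6.symm

theorem jPr : Pool.Agent.Y4.P.JPr := fun _ _ h _ hU hE => hasPr h hU hE

end

end Pool.Agent.Y293.P
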